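import Mathlib
import Pool.Agent.N903.Tree3

set_option autoImplicit false

/-!
# Sums of dilates of the cycles of the 3x+1 map

If `Z` is a finite union of cycles of the `3x+1` map on the integers, none of them `(0)` or `(1, 2)`, and `u`, `v`
are non-zero integers then the set `u Z + v Z` has at least `|Z| ^ 1.042` elements. So the sumset, the difference
set and all sums of two dilates of a long cycle are larger than the cycle by a power.

Method. The residue classes modulo `2 ^ k` of the elements of `Z` form a binary tree, in which the next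
digit of `x` is determined by the parity of `T^k x`. Since `T` permutes `Z`, the conditional entropies of the
digits are decreasing, at most the entropy of the proportion of odd elements of `Z`, which is at least `5 / 8`
and thus not close to `1 / 2`, and their sum is `log |Z|`. The next digit of a sum `u x + v y`, for given
previous digits of `x` and `y`, is a sum of two independent digits, and by the inequality of Wyner and Ziv
(Mrs. Gerber's lemma) its entropy is larger by a factor.
-/

namespace Pool.Agent.Results.MP_edb5be_nt.SumsOfDilates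

open Real

/-- The 3x+1 map on the integers. -/
def T (x : ℤ) : ℤ := if x % 2 = 0 then x / 2 else (3 * x + 1) / 2

/-- The finite set `Z` is permuted by `T`: it is a union of cycles. -/
def IsUnionOfCycles (Z : Finset ℤ) : Prop := (∀ x ∈ Z, T x ∈ Z) ∧ Set.InjOn T Z

theorem T_eq : T = Pool.Agent.N903.SS.T 3 1 := by
  funext x
  rfl

theorem small : ∀ x ∈ Finset.Icc (1 : ℤ) 32, ∃ k ∈ Finset.range 80, T^[k] x = 1 := by
  decide +kernel

/-- positive elements are at least `33` -/
theorem large {Z : Finset ℤ} (hZ : IsUnionOfCycles Z) (h1 : (1 : ℤ) ∉ Z) {x : ℤ} (hx : x ∈ Z)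
    (h0 : 0 < x) : 33 ≤ x := by
  by_contra hcon
  obtain ⟨k, -, hk⟩ := small x (Finset.mem_Icc.2 ⟨by omega, by omega⟩)
  apply h1
  rw [← hk]
  clear hk
  induction k with
  | zero => exact hx
  | succ k ih => rw [Function.iterate_succ_apply']; exact hZ.1 _ ih

/-- the proportion of odd elements -/
theorem density {Z : Finset ℤ} (hZ : IsUnionOfCycles Z) (h0 : (0 : ℤ) ∉ Z) (h1 : (1 : ℤ) ∉ Z) :
    5 * Z.card ≤ 8 * (Z.filter fun x => x % 2 = 1).card := by
  set O := Z.filter fun x => x % 2 = 1 with hO
  set E := Z.filter fun x => ¬ (x % 2 = 1) with hE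
  have hne : ∀ x ∈ Z, (x : ℝ) ≠ 0 := by
    intro x hx h
    apply h0
    have : x = 0 := by exact_mod_cast h
    rwa [this] at hx
  have himg : Z.image T = Z := by
    apply Finset.eq_of_subset_of_card_le
    · intro y hy
      rw [Finset.mem_image] at hy
      obtain ⟨x, hx, rfl⟩ := hy
      exact hZ.1 x hx
    · rw [Finset.card_image_of_injOn hZ.2]
  have hprod : ∏ x ∈ Z, ((T x : ℤ) : ℝ) = ∏ x ∈ Z, (x : ℝ) := by
    conv_rhs => rw [← himg]
    rw [Finset.prod_image fun x hx y hy => hZ.2 hx hy]
  have hprod2 : ∏ x ∈ Z, (2 * ((T x : ℤ) : ℝ)) / x = 2 ^ Z.card := by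
    rw [Finset.prod_div_distrib, Finset.prod_mul_distrib, hprod, Finset.prod_const]
    have : ∏ x ∈ Z, (x : ℝ) ≠ 0 := Finset.prod_ne_zero_iff.2 hne
    field_simp
  rw [← Finset.prod_filter_mul_prod_filter_not Z (fun x => x % 2 = 1)] at hprod2
  have hev : ∏ x ∈ E, (2 * ((T x : ℤ) : ℝ)) / x = 1 := by
    apply Finset.prod_eq_one
    intro x hx
    rw [hE, Finset.mem_filter] at hx
    have h2 : x % 2 = 0 := by omega
    have h3 : 2 * T x = x := by
      unfold T; rw [if_pos h2]; omega
    have h4 : 2 * ((T x : ℤ) : ℝ) = x := by exact_mod_cast h3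
    rw [h4, div_self (hne x hx.1)]
  rw [hev, mul_one] at hprod2
  have hod : ∏ x ∈ O, (2 * ((T x : ℤ) : ℝ)) / x ≤ ∏ x ∈ O, (100 / 33 : ℝ) := by
    apply Finset.prod_le_prod
    · intro x hx
      rw [hO, Finset.mem_filter] at hx
      have h3 : 2 * T x = 3 * x + 1 := by
        unfold T; rw [if_neg (by omega)]; omega
      have h4 : 2 * ((T x : ℤ) : ℝ) = 3 * x + 1 := by exact_mod_cast h3
      rw [h4]
      rcases lt_or_ge 0 x with h | h
      · have : (0 : ℝ) < x := by exact_mod_cast h
        positivity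
      · have hx1 : x ≤ -1 := by
          have : x ≠ 0 := fun h' => h0 (h' ▸ hx.1)
          omega
        have : (x : ℝ) ≤ -1 := by exact_mod_cast hx1
        exact div_nonneg_of_nonpos (by linarith) (by linarith)
    · intro x hx
      rw [hO, Finset.mem_filter] at hx
      have h3 : 2 * T x = 3 * x + 1 := by
        unfold T; rw [if_neg (by omega)]; omega
      have h4 : 2 * ((T x : ℤ) : ℝ) = 3 * x + 1 := by exact_mod_cast h3
      rw [h4]
      rcases lt_or_ge 0 x with h | h
      · have h5 : (33 : ℝ) ≤ x := by exact_mod_cast large hZ h1 hx.1 h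
        rw [div_le_iff₀ (by linarith)]
        linarith
      · have hx1 : x ≤ -1 := by
          have : x ≠ 0 := fun h' => h0 (h' ▸ hx.1)
          omega
        have : (x : ℝ) ≤ -1 := by exact_mod_cast hx1
        rw [div_le_iff_of_neg (by linarith)]
        linarith
  change ∏ x ∈ O, (2 * ((T x : ℤ) : ℝ)) / x = 2 ^ Z.card at hprod2
  rw [hprod2, Finset.prod_const] at hod
  have h5 : ((2 : ℝ) ^ Z.card) ^ 5 ≤ ((100 / 33 : ℝ) ^ O.card) ^ 5 :=
    pow_le_pow_left₀ (by positivity) hod 5
  rw [← pow_mul, ← pow_mul, mul_comm O.card, pow_mul (100 / 33 : ℝ)] at h5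
  have h6 : ((100 / 33 : ℝ) ^ 5) ^ O.card ≤ ((2 : ℝ) ^ 8) ^ O.card :=
    pow_le_pow_left₀ (by positivity) (by norm_num) _
  rw [← pow_mul (2 : ℝ)] at h6
  have h7 := h5.trans h6
  have h8 := (pow_le_pow_iff_right₀ (by norm_num : (1 : ℝ) < 2)).1 h7
  omega

/-- numerical values -/
theorem numerics : binEntropy (3 / 8) / binEntropy (Pool.Agent.N903.SS.star (3 / 8) (3 / 8)) ≤ 0.958 := by
  have hl2 : 0 < log 2 := Real.log_pos (by norm_num)
  have hs : Pool.Agent.N903.SS.star (3 / 8 : ℝ) (3 / 8) = 15 / 32 := by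
    unfold Pool.Agent.N903.SS.star; norm_num
  have e1 : binEntropy (3 / 8) = 3 * log 2 - 3 / 8 * log 3 - 5 / 8 * log 5 := by
    unfold binEntropy
    have h8 : log 8 = 3 * log 2 := by
      rw [show (8 : ℝ) = 2 ^ 3 by norm_num, Real.log_pow]; norm_num
    rw [show (1 - 3 / 8 : ℝ) = 5 / 8 by norm_num, Real.log_inv, Real.log_inv,
      Real.log_div (by norm_num) (by norm_num), Real.log_div (by norm_num) (by norm_num), h8]
    ring
  have e2 : binEntropy (15 / 32) = 5 * log 2 - 15 / 32 * (log 3 + log 5) - 17 / 32 * log 17 := by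
    unfold binEntropy
    have h8 : log 32 = 5 * log 2 := by
      rw [show (32 : ℝ) = 2 ^ 5 by norm_num, Real.log_pow]; norm_num
    have h15 : log 15 = log 3 + log 5 := by
      rw [← Real.log_mul (by norm_num) (by norm_num)]; norm_num
    rw [show (1 - 15 / 32 : ℝ) = 17 / 32 by norm_num, Real.log_inv, Real.log_inv,
      Real.log_div (by norm_num) (by norm_num), Real.log_div (by norm_num) (by norm_num), h8, h15]
    ring
  have a1 : 84 * log 2 ≤ 53 * log 3 := by
    have : Real.log ((2 : ℝ) ^ 84) ≤ Real.log ((3 : ℝ) ^ 53) := Real.log_le_log (by positivity) (by norm_num)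
    rw [Real.log_pow, Real.log_pow] at this
    exact_mod_cast this
  have a2 : 147 * log 3 ≤ 233 * log 2 := by
    have : Real.log ((3 : ℝ) ^ 147) ≤ Real.log ((2 : ℝ) ^ 233) := Real.log_le_log (by positivity) (by norm_num)
    rw [Real.log_pow, Real.log_pow] at this
    exact_mod_cast this
  have a3 : 202 * log 2 ≤ 87 * log 5 := by
    have : Real.log ((2 : ℝ) ^ 202) ≤ Real.log ((5 : ℝ) ^ 87) := Real.log_le_log (by positivity) (by norm_num)
    rw [Real.log_pow, Real.log_pow] at this
    exact_mod_cast this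
  have a4 : 59 * log 5 ≤ 137 * log 2 := by
    have : Real.log ((5 : ℝ) ^ 59) ≤ Real.log ((2 : ℝ) ^ 137) := Real.log_le_log (by positivity) (by norm_num)
    rw [Real.log_pow, Real.log_pow] at this
    exact_mod_cast this
  have a5 : 57 * log 17 ≤ 233 * log 2 := by
    have : Real.log ((17 : ℝ) ^ 57) ≤ Real.log ((2 : ℝ) ^ 233) := Real.log_le_log (by positivity) (by norm_num)
    rw [Real.log_pow, Real.log_pow] at this
    exact_mod_cast this
  have hpos : 0 < binEntropy (15 / 32) := binEntropy_pos (by norm_num) (by norm_num)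
  rw [hs, div_le_iff₀ hpos, e1, e2]
  linarith

/-- **Sums of dilates of cycles of the 3x+1 map.** Let `Z` be a finite set of integers, `0` and `1` not in `Z`,
which is permuted by `T` (a finite union of cycles other than `(0)` and `(1, 2)`, for example any other cycle).
Then for all non-zero integers `u`, `v` the set `u Z + v Z` has at least `|Z| ^ 1.042` elements. -/
theorem result (Z : Finset ℤ) (hZ : IsUnionOfCycles Z) (h0 : (0 : ℤ) ∉ Z) (h1 : (1 : ℤ) ∉ Z)
    (u v : ℤ) (hu : u ≠ 0) (hv : v ≠ 0) :
    (Z.card : ℝ) ^ (1.042 : ℝ) ≤ ((Finset.image₂ (fun x y => u * x + v * y) Z Z).card : ℝ) := by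
  rcases Finset.eq_empty_or_nonempty Z with hE | hN
  · subst hE
    simp only [Finset.card_empty, Nat.cast_zero, Finset.image₂_empty_left]
    rw [Real.zero_rpow (by norm_num)]
  have hc : (0 : ℝ) < Z.card := by exact_mod_cast Finset.card_pos.2 hN
  have hc1 : (1 : ℝ) ≤ Z.card := by exact_mod_cast Finset.card_pos.2 hN
  have hinv : Pool.Agent.N903.SS.Inv 3 1 Z := by
    unfold Pool.Agent.N903.SS.Inv
    rw [← T_eq]
    exact hZ
  have hρ : binEntropy (Pool.Agent.N903.SS.rho Z) ≤ binEntropy (3 / 8) := by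
    have hd := density hZ h0 h1
    have hd' : (5 : ℝ) * Z.card ≤ 8 * ((Z.filter fun x => x % 2 = 1).card : ℝ) := by exact_mod_cast hd
    have hle : ((Z.filter fun x => x % 2 = 1).card : ℝ) ≤ Z.card := by
      exact_mod_cast Finset.card_le_card (Finset.filter_subset _ _)
    have h5 : 5 / 8 ≤ Pool.Agent.N903.SS.rho Z := by
      unfold Pool.Agent.N903.SS.rho
      rw [le_div_iff₀ hc]
      linarith
    have h6 : Pool.Agent.N903.SS.rho Z ≤ 1 := by
      unfold Pool.Agent.N903.SS.rho
      rw [div_le_one hc]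
      exact hle
    rw [← binEntropy_one_sub]
    apply binEntropy_strictMonoOn.monotoneOn
    · exact ⟨by linarith, by norm_num; linarith⟩
    · constructor <;> norm_num
    · linarith
  have hmain := Pool.Agent.N903.SS.main (a := 3) (b := 1) (by norm_num) (by norm_num) hinv hN
    (β := 3 / 8) (by norm_num) (by norm_num) hρ hu hv
  have hnum := numerics
  have hlog : 0 ≤ Real.log Z.card := Real.log_nonneg hc1
  have h2 : 1.042 * Real.log Z.card ≤ Real.log (Pool.Agent.N903.SS.dil u v Z).card := by
    refine le_trans (mul_le_mul_of_nonneg_right ?_ hlog) hmain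
    linarith
  have hdil : (0 : ℝ) < (Pool.Agent.N903.SS.dil u v Z).card := by
    obtain ⟨x, hx⟩ := hN
    exact_mod_cast Finset.card_pos.2 ⟨_, Finset.mem_image₂_of_mem hx hx⟩
  rw [← Real.log_rpow hc] at h2
  exact (Real.log_le_log_iff (Real.rpow_pos_of_pos hc _) hdil).1 h2

end Pool.Agent.Results.MP_edb5be_nt.SumsOfDilates
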